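import Pool.Agent.Work.MP_bcc032_al.PI.Main
import Pool.Agent.Work.MP_bcc032_al.PI.I_Ker
import Pool.Agent.Work.MP_bcc032_al.PI.I_Act
import Pool.Agent.Work.MP_bcc032_al.PI.I_Nf
import Pool.Agent.Work.MP_bcc032_al.PI.I_Hall
import Pool.Agent.Work.MP_bcc032_al.PI.I_HNe
import Pool.Agent.Work.MP_bcc032_al.PI.I_Zd
import Pool.Agent.Work.MP_bcc032_al.PI.I_Box
import Pool.Agent.Work.MP_bcc032_al.PI.I_Deg
import Pool.Agent.Work.MP_bcc032_al.PI.I_Sc
import Pool.Agent.Work.MP_bcc032_al.PI.I_Kon
import Pool.Agent.Work.MP_bcc032_al.PI.I_DvTr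
import Pool.Agent.Work.MP_bcc032_al.PI.I_Par
import Pool.Agent.Work.MP_bcc032_al.PI.I_SDom
import Pool.Agent.Work.MP_bcc032_al.PI.I_Tp
import Pool.Agent.Work.MP_bcc032_al.PI.I_Kap

set_option autoImplicit false

/-! Q2 of MP_bcc032_al has a negative answer: PI algebras do not have bounded zero-divisors,
not even over one fixed field and for one fixed polynomial identity. -/

namespace Pool.Agent.Results.MP_bcc032_al.PIZeroDivisors

open Pool.Agent.Work.MP_bcc032_al.PI

/-- The elements of degree less than `N` of the free algebra on four letters: the span of the words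
of length less than `N`. -/
def Low (k : Type) [Field k] (N : ℕ) : Submodule k (FreeAlgebra k (Fin 4)) :=
  Submodule.span k {a : FreeAlgebra k (Fin 4) | ∃ w : FreeMonoid (Fin 4),
    w.length < N ∧ a = (w.toList.map (FreeAlgebra.ι k)).prod}

/-- `p` vanishes in the quotient by the two-sided ideal generated by the `r i`. -/
def Van {k : Type} [Field k] (r : Fin 8 → FreeAlgebra k (Fin 4)) (p : FreeAlgebra k (Fin 4)) :
    Prop := p ∈ TwoSidedIdeal.span (Set.range r)

/-- There are a field `k` and a nonzero noncommutative polynomial `f` in three variables such that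
for every `N` there are eight relations `r` of degree at most `4` in four variables for which the
algebra `k<x_1,..,x_4>/(r)` satisfies the identity `f` (so it is PI), is not a domain, and has no
pair of nonzero elements of degree less than `N` with product zero. -/
theorem result :
    ∃ (k : Type) (_ : Field k) (f : FreeAlgebra k (Fin 3)), f ≠ 0 ∧
      ∀ N : ℕ, ∃ r : Fin 8 → FreeAlgebra k (Fin 4),
        (∀ i, r i ∈ Low k 5) ∧
        (∀ a : Fin 3 → FreeAlgebra k (Fin 4), Van r (FreeAlgebra.lift k a f)) ∧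
        (∃ p q : FreeAlgebra k (Fin 4), ¬ Van r p ∧ ¬ Van r q ∧ Van r (p * q)) ∧
        ¬ ∃ p ∈ Low k N, ∃ q ∈ Low k N, ¬ Van r p ∧ ¬ Van r q ∧ Van r (p * q) := by
  obtain ⟨k, hk, f, hf, H⟩ := final pr_Ker pr_Act pr_Nf pr_Hall pr_HNe pr_Zd pr_Box pr_Deg pr_Sc
    pr_Kon pr_Dv pr_Tr pr_SDom (pr_Tp pr_Par) pr_Kap
  refine ⟨k, hk, f, hf, fun N => ?_⟩
  obtain ⟨r, hr, hPI, hzd, hlow⟩ := H N
  refine ⟨r, hr, hPI, hzd, ?_⟩
  rintro ⟨p, hp, q, hq, hp0, hq0, hpq⟩
  rcases hlow p q hp hq hpq with h | h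
  · exact hp0 h
  · exact hq0 h

end Pool.Agent.Results.MP_bcc032_al.PIZeroDivisors
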